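import Mathlib
import Pool.Agent.H19P.TMJ

/-! # Thue–Morse along several polynomials: all joint words, in every residue class

The question (one polynomial of degree at least three) is answered positively in the first clause;
the other clauses treat several polynomials at once. -/

set_option autoImplicit false

namespace Pool.Agent.Results.MP_b1aeef_nt.JointWords

open Polynomial

/-- The Thue–Morse sequence: `t n` is the parity of the sum of the binary digits of `n`. -/
def t (n : ℕ) : ℕ := (Nat.digits 2 n).sum % 2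

/-- The subsequence of `t` along `P`: `u_P n = t (P n)`. -/
def uSeq (P : ℤ[X]) (n : ℕ) : ℕ := t (P.eval (n : ℤ)).toNat

/-- The subword complexity of a sequence `u`: the number of distinct words
`u m, u (m+1), …, u (m+k-1)`, `m ≥ 0`. -/
noncomputable def complexity (u : ℕ → ℕ) (k : ℕ) : ℕ :=
  Set.ncard {w : Fin k → ℕ | ∃ m : ℕ, ∀ i : Fin k, w i = u (m + i)}

/-- The joint subword complexity of `r` sequences: the number of distinct `r × k` arrays
`(u_j m, u_j (m+1), …, u_j (m+k-1))_j`, `m ≥ 0`. -/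
noncomputable def jointComplexity {r : ℕ} (u : Fin r → ℕ → ℕ) (k : ℕ) : ℕ :=
  Set.ncard {w : Fin r → Fin k → ℕ | ∃ m : ℕ, ∀ (j : Fin r) (i : Fin k), w j i = u j (m + i)}

theorem t_cast (n : ℕ) : ((t n : ℕ) : ZMod 2) = Pool.Agent.H625R3.TM.tm n := by
  unfold t Pool.Agent.H625R3.TM.tm
  simp

theorem t_lt (n : ℕ) : t n < 2 := Nat.mod_lt _ (by norm_num)

theorem t_pow_mul (f x : ℕ) : t (2 ^ f * x) = t x := by
  have h := Pool.Agent.H625R3.TM.tm_pow_mul f x
  rw [← t_cast, ← t_cast] at h
  have h4 : t (2 ^ f * x) % 2 = t x % 2 := (ZMod.natCast_eq_natCast_iff _ _ 2).mp h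
  rwa [Nat.mod_eq_of_lt (t_lt _), Nat.mod_eq_of_lt (t_lt _)] at h4

/-- the arrays with entries `0, 1` -/
theorem ncard_arrays (r k : ℕ) :
    Set.ncard {w : Fin r → Fin k → ℕ | ∀ j i, w j i < 2} = 2 ^ (r * k) := by
  have hset : {w : Fin r → Fin k → ℕ | ∀ j i, w j i < 2} =
      Set.range (fun (g : Fin r → Fin k → Fin 2) (j : Fin r) (i : Fin k) => ((g j i : Fin 2) : ℕ)) := by
    ext w
    simp only [Set.mem_ofPred_eq, Set.mem_range]
    constructor
    · intro h
      exact ⟨fun j i => ⟨w j i, h j i⟩, rfl⟩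
    · rintro ⟨g, rfl⟩ j i
      exact (g j i).2
  have hinj : Function.Injective
      (fun (g : Fin r → Fin k → Fin 2) (j : Fin r) (i : Fin k) => ((g j i : Fin 2) : ℕ)) := by
    intro g h hgh
    funext j i
    exact Fin.ext (congrFun (congrFun hgh j) i)
  rw [hset, ← Set.image_univ, Set.ncard_image_of_injective _ hinj, Set.ncard_univ]
  simp [Nat.card_eq_fintype_card]
  rw [← pow_mul, mul_comm]

theorem finite_arrays (r k : ℕ) : {w : Fin r → Fin k → ℕ | ∀ j i, w j i < 2}.Finite := by
  apply Set.finite_of_ncard_ne_zero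
  rw [ncard_arrays]
  positivity

/-- the arrays that occur have entries `0, 1` -/
theorem sub_arrays {r : ℕ} (u : Fin r → ℕ → ℕ) (hu : ∀ j n, u j n < 2) (k : ℕ) :
    {w : Fin r → Fin k → ℕ | ∃ m : ℕ, ∀ (j : Fin r) (i : Fin k), w j i = u j (m + i)} ⊆
      {w : Fin r → Fin k → ℕ | ∀ j i, w j i < 2} := by
  rintro w ⟨m, hm⟩ j i
  rw [hm j i]
  exact hu _ _

theorem joint_inf (r : ℕ) (P : Fin r → ℤ[X]) (hP : ∀ j, ∀ n : ℕ, 0 ≤ (P j).eval (n : ℤ))
    (hdeg : ∀ j, 2 ≤ (P j).natDegree)
    (hlc : ∀ i j, i ≠ j → (P i).natDegree = (P j).natDegree →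
      ∀ f : ℕ, (P i).leadingCoeff ≠ 2 ^ f * (P j).leadingCoeff)
    (q : ℕ) (hq : 0 < q) (a k : ℕ) (w : Fin r → Fin k → ℕ) (hw : ∀ j i, w j i < 2) :
    {m : ℕ | m ≡ a [MOD q] ∧ ∀ (j : Fin r) (i : Fin k), uSeq (P j) (m + i) = w j i}.Infinite := by
  rw [Set.infinite_iff_exists_gt]
  intro N
  obtain ⟨n, hn, hnq, hv⟩ := Pool.Agent.H19P.TMJ.main_int P hP hdeg hlc q hq a (N + 1) k
    (fun j i => ((w j i : ℕ) : ZMod 2))
  refine ⟨n, ⟨hnq, fun j i => ?_⟩, by omega⟩
  have h1 := hv j i
  rw [← t_cast] at h1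
  have h5 : t ((P j).eval ((n + i : ℕ) : ℤ)).toNat % 2 = w j i % 2 :=
    (ZMod.natCast_eq_natCast_iff _ _ 2).mp h1
  rwa [Nat.mod_eq_of_lt (t_lt _), Nat.mod_eq_of_lt (hw j i)] at h5

theorem joint_complexity (r : ℕ) (P : Fin r → ℤ[X]) (hP : ∀ j, ∀ n : ℕ, 0 ≤ (P j).eval (n : ℤ))
    (hdeg : ∀ j, 2 ≤ (P j).natDegree)
    (hlc : ∀ i j, i ≠ j → (P i).natDegree = (P j).natDegree →
      ∀ f : ℕ, (P i).leadingCoeff ≠ 2 ^ f * (P j).leadingCoeff) (k : ℕ) :
    jointComplexity (fun j => uSeq (P j)) k = 2 ^ (r * k) := by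
  rw [jointComplexity, ← ncard_arrays]
  congr 1
  apply Set.Subset.antisymm (sub_arrays (fun j => uSeq (P j)) (fun _ _ => t_lt _) k)
  intro w hw
  obtain ⟨m, hm, hv⟩ := (joint_inf r P hP hdeg hlc 1 one_pos 0 k w hw).nonempty
  exact ⟨m, fun j i => (hv j i).symm⟩

/-- **Thue–Morse along several polynomials.**
(1) For every integer polynomial of degree at least two, non-negative on the natural numbers, the
Thue–Morse sequence along it has maximal subword complexity (the question is degree at least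
three).
(2) Let `P_1, …, P_r` be such polynomials, and suppose that for two of them of the same degree the
quotient of the leading coefficients is not a power of two. Then the joint subword complexity of
the `r` sequences is maximal, and every `r × k` array of bits occurs infinitely often with its
position in every residue class.
(3) For monomials `c_j n^(d_j)`, `d_j ≥ 2`, the condition is necessary and sufficient for maximal
joint complexity. -/
theorem result :
    (∀ P : ℤ[X], (∀ n : ℕ, 0 ≤ P.eval (n : ℤ)) → 2 ≤ P.natDegree →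
      ∀ k : ℕ, complexity (uSeq P) k = 2 ^ k) ∧
    (∀ (r : ℕ) (P : Fin r → ℤ[X]), (∀ j, ∀ n : ℕ, 0 ≤ (P j).eval (n : ℤ)) →
      (∀ j, 2 ≤ (P j).natDegree) →
      (∀ i j, i ≠ j → (P i).natDegree = (P j).natDegree →
        ∀ f : ℕ, (P i).leadingCoeff ≠ 2 ^ f * (P j).leadingCoeff) →
      (∀ k : ℕ, jointComplexity (fun j => uSeq (P j)) k = 2 ^ (r * k)) ∧
      ∀ (q : ℕ), 0 < q → ∀ (a k : ℕ) (w : Fin r → Fin k → ℕ), (∀ j i, w j i < 2) →
        {m : ℕ | m ≡ a [MOD q] ∧ ∀ (j : Fin r) (i : Fin k),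
          uSeq (P j) (m + i) = w j i}.Infinite) ∧
    (∀ (r : ℕ) (c d : Fin r → ℕ), (∀ j, 0 < c j) → (∀ j, 2 ≤ d j) →
      ((∀ k : ℕ, jointComplexity (fun j n => t (c j * n ^ d j)) k = 2 ^ (r * k)) ↔
        ∀ i j, i ≠ j → d i = d j → ∀ f : ℕ, c i ≠ 2 ^ f * c j)) := by
  refine ⟨fun P hP hd k => ?_, fun r P hP hdeg hlc => ⟨fun k => joint_complexity r P hP hdeg hlc k,
    fun q hq a k w hw => joint_inf r P hP hdeg hlc q hq a k w hw⟩, fun r c d hc hd => ?_⟩
  · have h := joint_complexity 1 (fun _ => P) (fun _ => hP) (fun _ => hd)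
      (fun i j hij => absurd (Subsingleton.elim i j) hij) k
    rw [one_mul] at h
    rw [← h, complexity, jointComplexity]
    have hinj : Function.Injective (fun (w : Fin k → ℕ) (_ : Fin 1) => w) := by
      intro w w' hww
      exact congrFun hww 0
    rw [← Set.ncard_image_of_injective _ hinj]
    congr 1
    ext w
    simp only [Set.mem_image, Set.mem_ofPred_eq]
    constructor
    · rintro ⟨w', ⟨m, hm⟩, rfl⟩
      exact ⟨m, fun _ i => hm i⟩
    · rintro ⟨m, hm⟩
      refine ⟨w 0, ⟨m, fun i => hm 0 i⟩, ?_⟩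
      funext j
      rw [Subsingleton.elim j 0]
  · constructor
    · intro h i j hij hdd f hcf
      -- the words of `i` and `j` are equal
      have hsub : {w : Fin r → Fin 1 → ℕ | ∃ m : ℕ, ∀ (j : Fin r) (i : Fin 1),
          w j i = t (c j * (m + i) ^ d j)} ⊂ {w : Fin r → Fin 1 → ℕ | ∀ j i, w j i < 2} := by
        refine ⟨sub_arrays (fun j n => t (c j * n ^ d j)) (fun _ _ => t_lt _) 1, fun hcon => ?_⟩
        obtain ⟨m, hm⟩ := hcon (show (fun (l : Fin r) (_ : Fin 1) => if l = i then 1 else 0) ∈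
          {w : Fin r → Fin 1 → ℕ | ∀ j i, w j i < 2} from by
            intro l _
            show (if l = i then 1 else 0) < 2
            split_ifs <;> norm_num)
        have h1 := hm i 0
        have h2 := hm j 0
        simp only [if_true] at h1
        simp only [if_neg (Ne.symm hij)] at h2
        rw [hcf, hdd, mul_assoc, t_pow_mul, ← h2] at h1
        exact one_ne_zero h1
      have h3 := Set.ncard_lt_ncard hsub (finite_arrays r 1)
      rw [ncard_arrays] at h3
      have h4 := h 1
      rw [jointComplexity] at h4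
      exact absurd h4 h3.ne
    · intro h k
      have key := joint_complexity r (fun j => C (c j : ℤ) * X ^ d j)
        (fun j n => by
          simp only [eval_mul, eval_C, eval_pow, eval_X]
          positivity)
        (fun j => by
          rw [natDegree_C_mul_X_pow _ _ (by have := hc j; positivity)]
          exact hd j)
        (fun i j hij hdd f hf => by
          rw [natDegree_C_mul_X_pow _ _ (by have := hc i; positivity),
            natDegree_C_mul_X_pow _ _ (by have := hc j; positivity)] at hdd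
          simp only [leadingCoeff_C_mul_X_pow] at hf
          exact h i j hij hdd f (by exact_mod_cast hf)) k
      rw [← key]
      congr 1
      funext j n
      unfold uSeq
      simp only [eval_mul, eval_C, eval_pow, eval_X]
      have : ((c j : ℤ) * (n : ℤ) ^ d j) = ((c j * n ^ d j : ℕ) : ℤ) := by push_cast; rfl
      rw [this, Int.toNat_natCast]

end Pool.Agent.Results.MP_b1aeef_nt.JointWords
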